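import Mathlib

set_option autoImplicit false

/-!
# Limits of critical points need not be parallel to the face at infinity

Laurent polynomials in `d` variables are finitely supported functions on the exponents
`Fin d → ℤ`. We give a Laurent polynomial in three variables with three-dimensional Newton
polytope, whose zero set is smooth, and a sequence of critical points converging to a point of the
torus orbit of an edge, whose directions converge to a direction not parallel to that edge.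
-/

namespace Pool.Agent.Results.MP_759130_ag.NotParallel

open Filter Topology

/-- Laurent polynomials in `d` variables: exponent vectors in `ℤ^d` with complex coefficients. -/
abbrev Laurent (d : ℕ) : Type := (Fin d → ℤ) →₀ ℂ

/-- The Laurent monomial `z^a`. -/
noncomputable def mon {d : ℕ} (z : Fin d → ℂ) (a : Fin d → ℤ) : ℂ := ∏ i, z i ^ a i

/-- The value `Q(z)`. -/
noncomputable def value {d : ℕ} (Q : Laurent d) (z : Fin d → ℂ) : ℂ :=
  Q.sum fun a c => c * mon z a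

/-- The logarithmic gradient `(z_1 ∂Q/∂z_1, ..., z_d ∂Q/∂z_d)` at `z`. -/
noncomputable def logGrad {d : ℕ} (Q : Laurent d) (z : Fin d → ℂ) : Fin d → ℂ :=
  fun i => Q.sum fun a c => c * (a i : ℂ) * mon z a

/-- `z` lies in `V_Q`, the zero set of `Q` in the complex torus. -/
def IsZero {d : ℕ} (Q : Laurent d) (z : Fin d → ℂ) : Prop :=
  (∀ i, z i ≠ 0) ∧ value Q z = 0

/-- An exponent vector as a real vector. -/
def toReal {d : ℕ} (a : Fin d → ℤ) : Fin d → ℝ := fun i => (a i : ℝ)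

/-- The Newton polytope `N(Q)`. -/
def newton {d : ℕ} (Q : Laurent d) : Set (Fin d → ℝ) :=
  convexHull ℝ (toReal '' (Q.support : Set (Fin d → ℤ)))

/-- `V_Q` is smooth at `z` and `z` is critical in direction `[r]`. -/
def IsSmoothCritical {d : ℕ} (Q : Laurent d) (z r : Fin d → ℂ) : Prop :=
  IsZero Q z ∧ logGrad Q z ≠ 0 ∧ ∃ c : ℂ, c ≠ 0 ∧ r = c • logGrad Q z

/-- The lattice points of the dilate `k N(Q)`. -/
def latticePoints {d : ℕ} (Q : Laurent d) (k : ℕ) : Set (Fin d → ℤ) :=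
  {a | toReal a ∈ (fun v => (k : ℝ) • v) '' newton Q}

/-- Convergence `[u_j] → [u]` in a projective space with coordinates indexed by `ι`:
suitable multiples of `u_j` converge to `u ≠ 0`. -/
def ProjTendsto {ι : Type} (u : ℕ → ι → ℂ) (v : ι → ℂ) : Prop :=
  v ≠ 0 ∧ ∃ c : ℕ → ℂ, (∀ j, c j ≠ 0) ∧ ∀ a, Tendsto (fun j => c j * u j a) atTop (𝓝 (v a))

/-- The points `x_j` of the torus converge, in the projective toric variety `X` of `N(Q)`, to a
point of the torus orbit `O_Γ` of the face `Γ`: for every `k ≥ 1` the points with the homogeneous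
coordinates `x_j^a`, `a ∈ k N(Q) ∩ ℤ^d`, converge to a point of projective space whose nonzero
coordinates are exactly those with `a ∈ k Γ`. (For large `k` these coordinates embed `X`
in projective space.) -/
def TendstoOrbit {d : ℕ} (Q : Laurent d) (x : ℕ → Fin d → ℂ) (Γ : Set (Fin d → ℝ)) : Prop :=
  ∀ k : ℕ, 1 ≤ k → ∃ v : latticePoints Q k → ℂ,
    ProjTendsto (fun j (a : latticePoints Q k) => mon (x j) a.1) v ∧
      ∀ a : latticePoints Q k, v a ≠ 0 ↔ toReal a.1 ∈ (fun w => (k : ℝ) • w) '' Γ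

/-- `Γ` is a (nonempty) face of `N(Q)`: the set where some linear functional attains its maximum
over `N(Q)`. -/
def IsFace {d : ℕ} (Q : Laurent d) (Γ : Set (Fin d → ℝ)) : Prop :=
  Γ.Nonempty ∧ ∃ l : Fin d → ℝ,
    Γ = {v | v ∈ newton Q ∧ ∀ w ∈ newton Q, ∑ i, l i * w i ≤ ∑ i, l i * v i}

/-- The direction `[r]` is parallel to `Γ`: `r` lies in the complex span of the differences of
points of `Γ`. -/
def IsParallel {d : ℕ} (Γ : Set (Fin d → ℝ)) (r : Fin d → ℂ) : Prop :=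
  r ∈ Submodule.span ℂ {w : Fin d → ℂ | ∃ a ∈ Γ, ∃ b ∈ Γ, w = fun i => ((a i - b i : ℝ) : ℂ)}

section

/-- the exponents -/
def e : Fin 5 → Fin 3 → ℤ := ![![2, 0, 0], ![1, 0, 0], ![0, 0, 0], ![0, 1, 0], ![0, 0, 1]]

/-- the coefficients -/
def co : Fin 5 → ℂ := ![1, -2, 1, 1, -1]

/-- The polynomial `(z_1 - 1)^2 + z_2 - z_3`. -/
noncomputable def Q0 : Laurent 3 := ∑ k, Finsupp.single (e k) (co k)

lemma e_inj : Function.Injective e := by decide

lemma sum_Q0 (h : (Fin 3 → ℤ) → ℂ → ℂ) (h0 : ∀ a, h a 0 = 0)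
    (hadd : ∀ a b c, h a (b + c) = h a b + h a c) : Q0.sum h = ∑ k, h (e k) (co k) := by
  rw [Q0, ← Finsupp.sum_finsetSum_index h0 hadd]
  exact Finset.sum_congr rfl fun k _ => Finsupp.sum_single_index (h0 _)

lemma mon3 (z : Fin 3 → ℂ) (a : Fin 3 → ℤ) : mon z a = z 0 ^ a 0 * z 1 ^ a 1 * z 2 ^ a 2 := by
  rw [mon, Fin.prod_univ_three]

lemma value_Q0 (z : Fin 3 → ℂ) : value Q0 z = (z 0 - 1) ^ 2 + z 1 - z 2 := by
  rw [value, sum_Q0 _ (by simp) (by intros; ring)]
  simp only [Fin.sum_univ_five, mon3, e, co]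
  simp
  ring

lemma logGrad_Q0 (z : Fin 3 → ℂ) :
    logGrad Q0 z = ![2 * z 0 ^ 2 - 2 * z 0, z 1, - z 2] := by
  funext i
  rw [logGrad, sum_Q0 _ (by simp) (by intros; ring)]
  simp only [Fin.sum_univ_five, mon3, e, co]
  fin_cases i
  · simp
    ring
  · simp
  · simp

lemma support_Q0 : (Q0.support : Set (Fin 3 → ℤ)) = Set.range e := by
  ext a
  rw [Finset.mem_coe, Finsupp.mem_support_iff]
  have h : Q0 a = ∑ k, if e k = a then co k else 0 := by
    rw [Q0, Finsupp.finsetSum_apply]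
    exact Finset.sum_congr rfl fun k _ => by rw [Finsupp.single_apply]
  rw [h]
  constructor
  · intro hne
    by_contra hno
    apply hne
    apply Finset.sum_eq_zero
    intro k _
    rw [if_neg]
    rintro rfl
    exact hno ⟨k, rfl⟩
  · rintro ⟨k, rfl⟩
    rw [Finset.sum_eq_single k]
    · rw [if_pos rfl]
      fin_cases k <;> simp [co]
    · intro j _ hj
      rw [if_neg]
      intro h
      exact hj (e_inj h)
    · simp

lemma toReal_e : toReal '' Set.range e = {![2, 0, 0], ![1, 0, 0], ![0, 0, 0], ![0, 1, 0], ![0, 0, 1]} := by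
  have h : ∀ k, toReal (e k) = (![![2, 0, 0], ![1, 0, 0], ![0, 0, 0], ![0, 1, 0], ![0, 0, 1]] :
      Fin 5 → Fin 3 → ℝ) k := by
    intro k
    funext i
    fin_cases k <;> fin_cases i <;> simp [toReal, e]
  ext v
  constructor
  · rintro ⟨_, ⟨k, rfl⟩, rfl⟩
    rw [h]
    fin_cases k <;> simp
  · rintro (rfl | rfl | rfl | rfl | rfl)
    · exact ⟨_, ⟨0, rfl⟩, h 0⟩
    · exact ⟨_, ⟨1, rfl⟩, h 1⟩
    · exact ⟨_, ⟨2, rfl⟩, h 2⟩
    · exact ⟨_, ⟨3, rfl⟩, h 3⟩
    · exact ⟨_, ⟨4, rfl⟩, h 4⟩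

/-- The Newton polytope is the simplex `v ≥ 0`, `v_0 / 2 + v_1 + v_2 ≤ 1`. -/
lemma newton_Q0 : newton Q0 = {v | 0 ≤ v 0 ∧ 0 ≤ v 1 ∧ 0 ≤ v 2 ∧ v 0 / 2 + v 1 + v 2 ≤ 1} := by
  rw [newton, support_Q0, toReal_e]
  apply le_antisymm
  · apply convexHull_min
    · rintro v (rfl | rfl | rfl | rfl | rfl) <;> (simp; try norm_num)
    · intro v hv w hw a b ha hb hab
      obtain ⟨v0, v1, v2, v3⟩ := hv
      obtain ⟨w0, w1, w2, w3⟩ := hw
      simp only [Set.mem_ofPred_eq, Pi.add_apply, Pi.smul_apply, smul_eq_mul]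
      refine ⟨by positivity, by positivity, by positivity, ?_⟩
      nlinarith
  · rintro v ⟨v0, v1, v2, v3⟩
    have hv : v = (v 0 / 2) • (![2, 0, 0] : Fin 3 → ℝ) + (v 1) • (![0, 1, 0] : Fin 3 → ℝ) +
        (v 2) • (![0, 0, 1] : Fin 3 → ℝ) + (1 - v 0 / 2 - v 1 - v 2) • (![0, 0, 0] : Fin 3 → ℝ) := by
      funext i
      fin_cases i <;> simp
    rw [hv]
    have h := (convex_convexHull ℝ ({![2, 0, 0], ![1, 0, 0], ![0, 0, 0], ![0, 1, 0], ![0, 0, 1]} :
      Set (Fin 3 → ℝ))).sum_mem (t := Finset.univ) (w := ![v 0 / 2, v 1, v 2, 1 - v 0 / 2 - v 1 - v 2])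
      (z := ![![2, 0, 0], ![0, 1, 0], ![0, 0, 1], ![0, 0, 0]]) (by
        intro i _
        fin_cases i
        · simp; linarith
        · exact v1
        · exact v2
        · simp; linarith) (by
        rw [Fin.sum_univ_four]; simp) (by
        intro i _
        apply subset_convexHull
        fin_cases i <;> simp)
    rw [Fin.sum_univ_four] at h
    exact h

/-- the edge from `0` to `2 e_1` -/
def edge : Set (Fin 3 → ℝ) := {v | 0 ≤ v 0 ∧ v 0 ≤ 2 ∧ v 1 = 0 ∧ v 2 = 0}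

lemma isFace_edge : IsFace Q0 edge := by
  refine ⟨⟨![0, 0, 0], by simp [edge]⟩, ![0, -1, -1], ?_⟩
  rw [newton_Q0]
  ext v
  constructor
  · rintro ⟨h0, h1, h2, h3⟩
    refine ⟨⟨h0, h2.ge, h3.ge, by rw [h2, h3]; linarith⟩, ?_⟩
    rintro w ⟨w0, w1, w2, w3⟩
    simp only [Fin.sum_univ_three]
    simp [h2, h3]
    linarith
  · rintro ⟨⟨h0, h1, h2, h3⟩, h4⟩
    have h5 := h4 ![0, 0, 0] (by simp)
    simp only [Fin.sum_univ_three] at h5
    simp at h5
    have e1 : v 1 = 0 := by linarith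
    have e2 : v 2 = 0 := by linarith
    exact ⟨h0, by rw [e1, e2] at h3; linarith, e1, e2⟩

/-- the critical points -/
noncomputable def x0 (j : ℕ) : Fin 3 → ℂ := ![1, 1 / ((j : ℂ) + 1), 1 / ((j : ℂ) + 1)]

lemma x0_ne (j : ℕ) : (1 : ℂ) / ((j : ℂ) + 1) ≠ 0 := by
  apply one_div_ne_zero
  exact_mod_cast Nat.succ_ne_zero j

lemma crit (j : ℕ) : IsSmoothCritical Q0 (x0 j) ![0, 1, -1] := by
  have hg : logGrad Q0 (x0 j) = ![0, 1 / ((j : ℂ) + 1), - (1 / ((j : ℂ) + 1))] := by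
    rw [logGrad_Q0]; simp [x0]
  refine ⟨⟨?_, ?_⟩, ?_, (j : ℂ) + 1, ?_, ?_⟩
  · intro i
    fin_cases i
    · exact one_ne_zero
    · exact x0_ne j
    · exact x0_ne j
  · rw [value_Q0]; simp [x0]
  · rw [hg]
    intro h
    exact x0_ne j (congrFun h 1)
  · exact_mod_cast Nat.succ_ne_zero j
  · have hj : (j : ℂ) + 1 ≠ 0 := by exact_mod_cast Nat.succ_ne_zero j
    rw [hg]
    funext i
    fin_cases i
    · simp
    · simp [hj]
    · simp [hj]

lemma mon_x0 (j : ℕ) (a : Fin 3 → ℤ) : mon (x0 j) a = (1 / ((j : ℂ) + 1)) ^ (a 1 + a 2) := by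
  rw [mon3, zpow_add₀ (x0_ne j)]
  simp [x0]

lemma tendsto_zero : Tendsto (fun j : ℕ => (1 : ℂ) / ((j : ℂ) + 1)) atTop (𝓝 0) :=
  tendsto_one_div_add_atTop_nhds_zero_nat

lemma lp_iff (k : ℕ) (hk : 1 ≤ k) (a : Fin 3 → ℤ) : a ∈ latticePoints Q0 k →
    0 ≤ a 1 ∧ 0 ≤ a 2 ∧ (toReal a ∈ (fun w => (k : ℝ) • w) '' edge ↔ a 1 + a 2 = 0) := by
  rintro ⟨v, hv, hva⟩
  rw [newton_Q0] at hv
  obtain ⟨v0, v1, v2, v3⟩ := hv
  have hk' : (0 : ℝ) < k := by exact_mod_cast hk
  have a0 : (a 0 : ℝ) = k * v 0 := (congrFun hva 0).symm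
  have a1 : (a 1 : ℝ) = k * v 1 := (congrFun hva 1).symm
  have a2 : (a 2 : ℝ) = k * v 2 := (congrFun hva 2).symm
  have p1 : 0 ≤ a 1 := by
    have : (0 : ℝ) ≤ a 1 := by rw [a1]; positivity
    exact_mod_cast this
  have p2 : 0 ≤ a 2 := by
    have : (0 : ℝ) ≤ a 2 := by rw [a2]; positivity
    exact_mod_cast this
  refine ⟨p1, p2, ?_, ?_⟩
  · rintro ⟨w, ⟨w0, w1, w2, w3⟩, hwa⟩
    have b1 : (a 1 : ℝ) = k * w 1 := (congrFun hwa 1).symm
    have b2 : (a 2 : ℝ) = k * w 2 := (congrFun hwa 2).symm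
    rw [w2, mul_zero] at b1
    rw [w3, mul_zero] at b2
    have : ((a 1 + a 2 : ℤ) : ℝ) = 0 := by push_cast; rw [b1, b2, add_zero]
    exact_mod_cast this
  · intro h
    have c1 : a 1 = 0 := by omega
    have c2 : a 2 = 0 := by omega
    rw [c1] at a1
    rw [c2] at a2
    have d1 : v 1 = 0 := by
      have : (k : ℝ) * v 1 = 0 := by rw [← a1]; simp
      exact (mul_eq_zero.1 this).resolve_left hk'.ne'
    have d2 : v 2 = 0 := by
      have : (k : ℝ) * v 2 = 0 := by rw [← a2]; simp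
      exact (mul_eq_zero.1 this).resolve_left hk'.ne'
    exact ⟨v, ⟨v0, by rw [d1, d2] at v3; linarith, d1, d2⟩, hva⟩

lemma tendstoOrbit : TendstoOrbit Q0 x0 edge := by
  intro k hk
  refine ⟨fun a => if a.1 1 + a.1 2 = 0 then 1 else 0, ⟨?_, fun _ => 1, fun _ => one_ne_zero, ?_⟩, ?_⟩
  · intro h
    have h0 : (0 : Fin 3 → ℤ) ∈ latticePoints Q0 k :=
      ⟨![0, 0, 0], by rw [newton_Q0]; simp, by
        funext i; fin_cases i <;> simp [toReal]⟩
    have := congrFun h ⟨0, h0⟩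
    simp at this
  · rintro ⟨a, ha⟩
    obtain ⟨h1, h2, -⟩ := lp_iff k hk a ha
    simp only [one_mul, mon_x0]
    obtain ⟨n, hn⟩ := Int.eq_ofNat_of_zero_le (add_nonneg h1 h2)
    rw [hn]
    by_cases hn0 : n = 0
    · subst hn0
      simp
    · have : ((n : ℕ) : ℤ) ≠ 0 := by exact_mod_cast hn0
      rw [if_neg this]
      have := tendsto_zero.pow n
      rw [zero_pow hn0] at this
      simpa only [zpow_natCast] using this
  · rintro ⟨a, ha⟩
    obtain ⟨-, -, h3⟩ := lp_iff k hk a ha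
    rw [h3]
    simp

lemma not_parallel : ¬ IsParallel edge ![0, 1, -1] := by
  intro h
  have hle : Submodule.span ℂ {w : Fin 3 → ℂ | ∃ a ∈ edge, ∃ b ∈ edge,
      w = fun i => ((a i - b i : ℝ) : ℂ)} ≤
      LinearMap.ker (LinearMap.proj (R := ℂ) (φ := fun _ : Fin 3 => ℂ) 1) := by
    rw [Submodule.span_le]
    rintro w ⟨a, ⟨_, _, a1, _⟩, b, ⟨_, _, b1, _⟩, rfl⟩
    show (((a 1 - b 1 : ℝ)) : ℂ) = 0
    rw [a1, b1]; simp
  have := hle h
  rw [LinearMap.mem_ker] at this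
  simp at this

end

/-- **Limits of critical points need not be parallel to the face at infinity.** There are a
Laurent polynomial `Q` in three variables with full-dimensional Newton polytope, points `x_j ∈ V_Q`
at which `V_Q` is smooth and which are critical in directions `[r_j]`, and a face `Γ` of `N(Q)`,
such that the `x_j` converge in the projective toric variety of `N(Q)` to a point of the torus
orbit of `Γ` and the directions converge to `[r]`, but `r` is not parallel to `Γ`. -/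
theorem result : ∃ (Q : Laurent 3) (x r : ℕ → Fin 3 → ℂ) (Γ : Set (Fin 3 → ℝ)) (r' : Fin 3 → ℂ),
    affineSpan ℝ (newton Q) = ⊤ ∧ (∀ z, IsZero Q z → logGrad Q z ≠ 0) ∧
      (∀ j, IsSmoothCritical Q (x j) (r j)) ∧ IsFace Q Γ ∧ TendstoOrbit Q x Γ ∧
      ProjTendsto r r' ∧ ¬ IsParallel Γ r' := by
  refine ⟨Q0, x0, fun _ => ![0, 1, -1], edge, ![0, 1, -1], ?_, ?_, crit, isFace_edge,
    tendstoOrbit, ⟨?_, fun _ => 1, fun _ => one_ne_zero, fun a => by simp⟩, not_parallel⟩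
  · rw [newton_Q0]
    have hint : (interior {v : Fin 3 → ℝ | 0 ≤ v 0 ∧ 0 ≤ v 1 ∧ 0 ≤ v 2 ∧
        v 0 / 2 + v 1 + v 2 ≤ 1}).Nonempty := by
      refine ⟨![1/4, 1/4, 1/4], ?_⟩
      rw [mem_interior]
      refine ⟨{v | 0 < v 0 ∧ 0 < v 1 ∧ 0 < v 2 ∧ v 0 / 2 + v 1 + v 2 < 1}, ?_, ?_, ?_⟩
      · rintro v ⟨h0, h1, h2, h3⟩
        exact ⟨h0.le, h1.le, h2.le, h3.le⟩
      · have hc : Continuous fun v : Fin 3 → ℝ => v 0 / 2 + v 1 + v 2 := by fun_prop
        exact IsOpen.inter (isOpen_lt continuous_const (continuous_apply 0)) (IsOpen.inter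
          (isOpen_lt continuous_const (continuous_apply 1)) (IsOpen.inter
          (isOpen_lt continuous_const (continuous_apply 2)) (isOpen_lt hc
          continuous_const)))
      · simp; norm_num
    have hconv : Convex ℝ {v : Fin 3 → ℝ | 0 ≤ v 0 ∧ 0 ≤ v 1 ∧ 0 ≤ v 2 ∧
        v 0 / 2 + v 1 + v 2 ≤ 1} := by
      rw [← newton_Q0]
      exact convex_convexHull ℝ _
    exact hconv.interior_nonempty_iff_affineSpan_eq_top.1 hint
  · rintro z ⟨hz, -⟩ h
    rw [logGrad_Q0] at h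
    exact hz 1 (congrFun h 1)
  · intro h
    have := congrFun h 1
    simp at this

end Pool.Agent.Results.MP_759130_ag.NotParallel
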